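import Pool.Agent.Run7.h573.FK.Iface

/-!
# Project FK, piece P4
-/

set_option autoImplicit false

namespace Pool.Agent.Run7.h874.FK

open Topology Filter Set Pool.Agent.Run7.h573.FK

universe u

theorem t_P4 (W : Type u) [LinearOrder W] [OrderTop W] [TopologicalSpace W] [OrderTopology W]
    (hG : Good W) : S_P4 W := by
  intro t ht hof V hV
  letI := t
  haveI := ht
  have hof' : Continuous (FreeAbelianGroup.of : XX W → FreeAbelianGroup (XX W)) := hof
  obtain ⟨V₁, hV₁, h1⟩ := exists_nhds_half_neg hV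
  obtain ⟨V₂, hV₂, h2⟩ := exists_nhds_half_neg hV₁
  -- the neighbourhoods of the points `(n, ⊤)`
  have hb : ∀ n : ℕ, ∃ b : W, b < ⊤ ∧ ∀ β : W, (hβ : β < ⊤) → b < β →
      (FreeAbelianGroup.of (⟨(pure n, β), Or.inl hβ⟩ : XX W) - FreeAbelianGroup.of (iot W n) :
        FreeAbelianGroup (XX W)) ∈ V₂ := by
    intro n
    have hc : Continuous (fun β : W => (FreeAbelianGroup.of
        (⟨(pure n, β), Or.inr ⟨n, rfl⟩⟩ : XX W) - FreeAbelianGroup.of (iot W n) :
        FreeAbelianGroup (XX W))) := by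
      refine Continuous.sub (hof'.comp ?_) continuous_const
      exact Continuous.subtype_mk (by fun_prop) _
    have h0 : (fun β : W => (FreeAbelianGroup.of
        (⟨(pure n, β), Or.inr ⟨n, rfl⟩⟩ : XX W) - FreeAbelianGroup.of (iot W n) :
        FreeAbelianGroup (XX W))) ⊤ = 0 := by
      simp [iot]
    have h3 : (fun β : W => (FreeAbelianGroup.of
        (⟨(pure n, β), Or.inr ⟨n, rfl⟩⟩ : XX W) - FreeAbelianGroup.of (iot W n) :
        FreeAbelianGroup (XX W))) ⁻¹' V₂ ∈ 𝓝 (⊤ : W) := by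
      apply hc.continuousAt
      rw [h0]
      exact hV₂
    obtain ⟨l, hl, hs⟩ := exists_Ioc_subset_of_mem_nhds h3 hG.ne
    exact ⟨l, hl, fun β hβ hlβ => hs ⟨hlβ, le_top⟩⟩
  choose b hb1 hb2 using hb
  obtain ⟨s, hs1, hs2⟩ := hG.bdd b hb1
  obtain ⟨β, hβ1, hβ2⟩ := hG.top s hs1
  -- the points `(n, β)`
  have hc : Continuous (fun p : Ultrafilter ℕ => (FreeAbelianGroup.of
      (⟨(p, β), Or.inl hβ2⟩ : XX W) : FreeAbelianGroup (XX W))) := by
    refine hof'.comp ?_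
    exact Continuous.subtype_mk (by fun_prop) _
  set P : FreeAbelianGroup (XX W) := FreeAbelianGroup.of
    (⟨(hyperfilter ℕ, β), Or.inl hβ2⟩ : XX W) with hP
  have h4 : Tendsto (fun n : ℕ => (FreeAbelianGroup.of
      (⟨(pure n, β), Or.inl hβ2⟩ : XX W) - P : FreeAbelianGroup (XX W))) (hyperfilter ℕ) (𝓝 0) := by
    have h5 := (hc.tendsto (hyperfilter ℕ)).comp (Ultrafilter.tendsto_pure_self (hyperfilter ℕ))
    have h6 := h5.sub_const P
    rwa [sub_self] at h6
  have h5 : {n : ℕ | (FreeAbelianGroup.of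
      (⟨(pure n, β), Or.inl hβ2⟩ : XX W) - P : FreeAbelianGroup (XX W)) ∈ V₂}.Infinite := by
    intro hfin
    exact notMem_hyperfilter_of_finite hfin (h4 hV₂)
  obtain ⟨n, hn⟩ := h5.nonempty
  obtain ⟨m, hm, hmn⟩ := (h5.diff (finite_singleton n)).nonempty
  refine ⟨n, m, fun h => hmn h.symm, ?_⟩
  have e1 := h2 _ hn _ hm
  have e2 := h2 _ (hb2 n β hβ2 (lt_of_le_of_lt (hs2 n) hβ1)) _
    (hb2 m β hβ2 (lt_of_le_of_lt (hs2 m) hβ1))
  have e3 := h1 _ e1 _ e2
  have e4 : (FreeAbelianGroup.of (iot W n) - FreeAbelianGroup.of (iot W m) :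
      FreeAbelianGroup (XX W)) =
      (FreeAbelianGroup.of (⟨(pure n, β), Or.inl hβ2⟩ : XX W) - P -
        (FreeAbelianGroup.of (⟨(pure m, β), Or.inl hβ2⟩ : XX W) - P)) -
      (FreeAbelianGroup.of (⟨(pure n, β), Or.inl hβ2⟩ : XX W) - FreeAbelianGroup.of (iot W n) -
        (FreeAbelianGroup.of (⟨(pure m, β), Or.inl hβ2⟩ : XX W) -
          FreeAbelianGroup.of (iot W m))) := by abel
  rw [e4]
  exact e3

end Pool.Agent.Run7.h874.FK
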