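import Pool.Agent.Run7.h573.FK.Iface

/-!
# Project FK, piece P1
-/

set_option autoImplicit false

namespace Pool.Agent.Run7.h874.FK

open Topology Filter Set Pool.Agent.Run7.h573.FK

universe u

variable {C : Type u}

/-- partial sums -/
def D (x y : ℕ → C) (n : ℕ) : FreeAbelianGroup C :=
  ∑ i ∈ Finset.range n, (FreeAbelianGroup.of (x i) - FreeAbelianGroup.of (y i))

theorem D_succ (x y : ℕ → C) (n : ℕ) : D x y (n + 1) =
    D x y n + (FreeAbelianGroup.of (x n) - FreeAbelianGroup.of (y n)) :=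
  Finset.sum_range_succ _ _

theorem D_of_le {x y : ℕ → C} {n m : ℕ} (h : ∀ i, n ≤ i → x i = y i) (hm : n ≤ m) :
    D x y m = D x y n := by
  induction m, hm using Nat.le_induction with
  | base => rfl
  | succ k hk ih => rw [D_succ, ih, h k hk, sub_self, add_zero]

/-- the basic sets -/
def NN (U : ℕ → Set (C × C)) : Set (FreeAbelianGroup C) :=
  {s | ∃ (n : ℕ) (x y : ℕ → C), (∀ i, (x i, y i) ∈ U i) ∧ (∀ i, n ≤ i → x i = y i) ∧ s = D x y n}

theorem NN_mono {U V : ℕ → Set (C × C)} (h : ∀ i, V i ⊆ U i) : NN V ⊆ NN U := by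
  rintro s ⟨n, x, y, h1, h2, h3⟩
  exact ⟨n, x, y, fun i => h i (h1 i), h2, h3⟩

/-- interlacing -/
def mix (x y : ℕ → C) (j : ℕ) : C := if j % 2 = 0 then x (j / 2) else y (j / 2)

theorem mix_even (x y : ℕ → C) (i : ℕ) : mix x y (2 * i) = x i := by
  unfold mix
  rw [if_pos (by omega)]
  congr 1; omega

theorem mix_odd (x y : ℕ → C) (i : ℕ) : mix x y (2 * i + 1) = y i := by
  unfold mix
  rw [if_neg (by omega)]
  congr 1; omega

theorem D_mix (x y x' y' : ℕ → C) (n : ℕ) :
    D (mix x x') (mix y y') (2 * n) = D x y n + D x' y' n := by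
  induction n with
  | zero => simp [D]
  | succ n ih =>
    have : 2 * (n + 1) = 2 * n + 1 + 1 := by ring
    rw [this, D_succ, D_succ, ih, D_succ, D_succ, mix_even, mix_even, mix_odd, mix_odd]
    abel

theorem D_neg (x y : ℕ → C) (n : ℕ) : D y x n = -D x y n := by
  unfold D
  rw [← Finset.sum_neg_distrib]
  exact Finset.sum_congr rfl fun i _ => (neg_sub _ _).symm

theorem NN_add (U : ℕ → Set (C × C)) {s s' : FreeAbelianGroup C}
    (hs : s ∈ NN (fun i => U (2 * i) ∩ U (2 * i + 1)))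
    (hs' : s' ∈ NN (fun i => U (2 * i) ∩ U (2 * i + 1))) : s + s' ∈ NN U := by
  obtain ⟨n, x, y, h1, h2, h3⟩ := hs
  obtain ⟨m, x', y', h1', h2', h3'⟩ := hs'
  refine ⟨2 * max n m, mix x x', mix y y', ?_, ?_, ?_⟩
  · intro j
    rcases Nat.even_or_odd' j with ⟨i, rfl | rfl⟩
    · rw [mix_even, mix_even]; exact (h1 i).1
    · rw [mix_odd, mix_odd]; exact (h1' i).2
  · intro j hj
    rcases Nat.even_or_odd' j with ⟨i, rfl | rfl⟩
    · rw [mix_even, mix_even]
      exact h2 i ((le_max_left n m).trans (by omega))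
    · rw [mix_odd, mix_odd]
      exact h2' i ((le_max_right n m).trans (by omega))
  · rw [D_mix, h3, h3', D_of_le h2 (le_max_left n m), D_of_le h2' (le_max_right n m)]

theorem NN_neg (U : ℕ → Set (C × C)) {s : FreeAbelianGroup C}
    (hs : s ∈ NN (fun i => Prod.swap ⁻¹' U i)) : -s ∈ NN U := by
  obtain ⟨n, x, y, h1, h2, h3⟩ := hs
  exact ⟨n, y, x, h1, fun i hi => (h2 i hi).symm, by rw [h3, D_neg x y]⟩

/-- the family of sets -/
def fam (C : Type u) [TopologicalSpace C] : Set (Set (FreeAbelianGroup C)) :=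
  {S | ∃ U : ℕ → Set (C × C), (∀ i, IsOpen (U i)) ∧ (∀ i c, (c, c) ∈ U i) ∧ S = NN U}

/-- the group filter basis -/
@[instance_reducible]
def gfb (C : Type u) [TopologicalSpace C] (c₀ : C) : AddGroupFilterBasis (FreeAbelianGroup C) :=
  addGroupFilterBasisOfComm (fam C)
    ⟨NN fun _ => univ, fun _ => univ, fun _ => isOpen_univ, fun _ _ => mem_univ _, rfl⟩
    (by
      rintro _ _ ⟨U, h1, h2, rfl⟩ ⟨V, h3, h4, rfl⟩
      refine ⟨NN fun i => U i ∩ V i, ⟨_, fun i => (h1 i).inter (h3 i),
        fun i c => ⟨h2 i c, h4 i c⟩, rfl⟩, ?_⟩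
      exact subset_inter (NN_mono fun i => inter_subset_left) (NN_mono fun i => inter_subset_right))
    (by
      rintro _ ⟨U, h1, h2, rfl⟩
      exact ⟨0, fun _ => c₀, fun _ => c₀, fun i => h2 i c₀, fun _ _ => rfl, by simp [D]⟩)
    (by
      rintro _ ⟨U, h1, h2, rfl⟩
      refine ⟨_, ⟨fun i => U (2 * i) ∩ U (2 * i + 1), fun i => (h1 _).inter (h1 _),
        fun i c => ⟨h2 _ c, h2 _ c⟩, rfl⟩, ?_⟩
      rintro _ ⟨s, hs, s', hs', rfl⟩
      exact NN_add U hs hs')
    (by
      rintro _ ⟨U, h1, h2, rfl⟩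
      refine ⟨_, ⟨fun i => Prod.swap ⁻¹' U i, fun i => (h1 i).preimage continuous_swap,
        fun i c => h2 i c, rfl⟩, ?_⟩
      intro s hs
      exact NN_neg U hs)

theorem of_cont (C : Type u) [TopologicalSpace C] (c₀ : C) :
    @Continuous _ _ _ (gfb C c₀).topology (FreeAbelianGroup.of : C → FreeAbelianGroup C) := by
  letI := (gfb C c₀).topology
  rw [continuous_iff_continuousAt]
  intro x₀
  rw [ContinuousAt, ((gfb C c₀).nhds_hasBasis (FreeAbelianGroup.of x₀)).tendsto_right_iff]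
  rintro _ ⟨U, h1, h2, rfl⟩
  have h3 : {x : C | (x, x₀) ∈ U 0} ∈ 𝓝 x₀ :=
    ((h1 0).preimage (by fun_prop : Continuous fun x : C => (x, x₀))).mem_nhds (h2 0 x₀)
  filter_upwards [h3] with x hx
  refine ⟨FreeAbelianGroup.of x - FreeAbelianGroup.of x₀, ?_, by simp⟩
  refine ⟨1, fun i => if i = 0 then x else x₀, fun _ => x₀, ?_, ?_, by simp [D]⟩
  · intro i
    by_cases hi : i = 0
    · subst hi; simpa using hx
    · simpa [hi] using h2 i x₀
  · intro i hi
    have hi0 : i ≠ 0 := by omega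
    show (if i = 0 then x else x₀) = x₀
    rw [if_neg hi0]

theorem freeTop_grp (C : Type u) [TopologicalSpace C] :
    @IsTopologicalAddGroup _ (freeTop C) _ :=
  topologicalAddGroup_sInf fun _ ht => ht.1

theorem freeTop_of (C : Type u) [TopologicalSpace C] :
    @Continuous _ _ _ (freeTop C) (FreeAbelianGroup.of : C → FreeAbelianGroup C) :=
  continuous_sInf_rng.2 fun _ ht => ht.2

theorem freeTop_nhds {C : Type u} [TopologicalSpace C] (c₀ : C) {U : ℕ → Set (C × C)}
    (h1 : ∀ i, IsOpen (U i)) (h2 : ∀ i c, (c, c) ∈ U i) (a : FreeAbelianGroup C) :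
    (fun s => a + s) '' NN U ∈ @nhds _ (freeTop C) a := by
  have hle : freeTop C ≤ (gfb C c₀).topology := by
    refine sInf_le ⟨?_, of_cont C c₀⟩
    exact AddGroupFilterBasis.isTopologicalAddGroup (gfb C c₀)
  have h3 := (((gfb C c₀).nhds_hasBasis a).mem_of_mem (i := NN U) ⟨U, h1, h2, rfl⟩)
  exact (nhds_mono hle : @nhds _ (freeTop C) a ≤ @nhds _ (gfb C c₀).topology a) h3

theorem t_P1 : S_P1.{u} := by
  intro C _ _ _ f hf
  rcases isEmpty_or_nonempty C with hC | ⟨⟨c₀⟩⟩
  · letI := freeTop C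
    haveI : Subsingleton (FreeAbelianGroup C) := by
      refine ⟨fun a b => ?_⟩
      have : ∀ a : FreeAbelianGroup C, a = 0 := fun a =>
        FreeAbelianGroup.induction_on a rfl (fun c => (hC.false c).elim)
          (fun c => (hC.false c).elim) (fun x y hx hy => by rw [hx, hy, add_zero])
      rw [this a, this b]
    exact continuous_of_discreteTopology
  letI := freeTop C
  haveI := freeTop_grp C
  have hof : Continuous (FreeAbelianGroup.of : C → FreeAbelianGroup C) := freeTop_of C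
  rw [continuous_iff_continuousAt]
  intro a
  rw [Metric.continuousAt_iff']
  intro ε hε
  -- the functions `G`
  let g : (n : ℕ) → (Fin n → C × C) × (C × C) → FreeAbelianGroup C := fun n q =>
    a + ∑ i, (FreeAbelianGroup.of (q.1 i).1 - FreeAbelianGroup.of (q.1 i).2) +
      (FreeAbelianGroup.of q.2.1 - FreeAbelianGroup.of q.2.2)
  have hg : ∀ n, Continuous (g n) := by
    intro n
    refine (continuous_const.add (continuous_finsetSum _ fun i _ => ?_)).add ?_
    · exact (hof.comp (by fun_prop)).sub (hof.comp (by fun_prop))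
    · exact (hof.comp (by fun_prop)).sub (hof.comp (by fun_prop))
  have hfg : ∀ n, Continuous (f ∘ g n) := by
    intro n
    have h1 : IsCompact (range (g n)) := isCompact_range (hg n)
    exact (hf _ h1).comp_continuous (hg n) fun q => mem_range_self q
  let T : (n : ℕ) → Set ((Fin n → C × C) × (C × C)) := fun n =>
    {q | ε / 2 ^ (n + 2) ≤ |f (g n q) - f (g n (q.1, (q.2.1, q.2.1)))|}
  have hT : ∀ n, IsClosed (T n) := by
    intro n
    refine isClosed_le continuous_const ?_
    have h2 : Continuous fun q : (Fin n → C × C) × (C × C) => f (g n (q.1, (q.2.1, q.2.1))) :=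
      (hfg n).comp (by fun_prop :
        Continuous fun q : (Fin n → C × C) × (C × C) => (q.1, (q.2.1, q.2.1)))
    exact ((hfg n).sub h2).abs
  let U : ℕ → Set (C × C) := fun n => (Prod.snd '' T n)ᶜ
  have hU : ∀ n, IsOpen (U n) := fun n =>
    (isClosedMap_snd_of_compactSpace _ (hT n)).isOpen_compl
  have hU2 : ∀ n c, (c, c) ∈ U n := by
    rintro n c ⟨⟨p, q⟩, hq, hqc⟩
    simp only at hqc
    subst hqc
    have : ε / 2 ^ (n + 2) ≤ |f (g n (p, (c, c))) - f (g n (p, (c, c)))| := hq
    rw [sub_self, abs_zero] at this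
    have h3 : 0 < ε / 2 ^ (n + 2) := by positivity
    linarith
  have hN := freeTop_nhds c₀ hU hU2 a
  filter_upwards [hN]
  rintro _ ⟨s, ⟨n, x, y, h1, h2, rfl⟩, rfl⟩
  rw [Real.dist_eq]
  have key : ∀ n, |f (a + D x y n) - f a| ≤ ε / 2 - ε / 2 ^ (n + 1) := by
    intro n
    induction n with
    | zero => simp [D]
    | succ n ih =>
      have h3 : ((fun i : Fin n => (x i, y i)), (x n, y n)) ∉ T n := fun h => h1 n ⟨_, h, rfl⟩
      have h4 : |f (g n ((fun i : Fin n => (x i, y i)), (x n, y n))) -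
          f (g n ((fun i : Fin n => (x i, y i)), (x n, x n)))| < ε / 2 ^ (n + 2) := not_le.1 h3
      have h5 : ∑ i : Fin n, (FreeAbelianGroup.of (x i) - FreeAbelianGroup.of (y i)) = D x y n :=
        Fin.sum_univ_eq_sum_range
          (fun i => FreeAbelianGroup.of (x i) - FreeAbelianGroup.of (y i)) n
      have h6 : g n ((fun i : Fin n => (x i, y i)), (x n, y n)) = a + D x y (n + 1) := by
        simp only [g]
        rw [h5, D_succ, add_assoc]
      have h7 : g n ((fun i : Fin n => (x i, y i)), (x n, x n)) = a + D x y n := by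
        simp only [g]
        rw [h5, sub_self, add_zero]
      rw [h6, h7] at h4
      have h8 : |f (a + D x y (n + 1)) - f a| ≤
          |f (a + D x y (n + 1)) - f (a + D x y n)| + |f (a + D x y n) - f a| :=
        abs_sub_le _ _ _
      have h9 : ε / 2 ^ (n + 1) = 2 * (ε / 2 ^ (n + 2)) := by
        field_simp; ring
      have h10 : n + 1 + 1 = n + 2 := rfl
      rw [h10]
      linarith
  have h3 : 0 < ε / 2 ^ (n + 1) := by positivity
  have := key n
  linarith

end Pool.Agent.Run7.h874.FK
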