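import Pool.Agent.Run7.h573.FK.Iface

/-!
# Project FK, piece P2
-/

set_option autoImplicit false

namespace Pool.Agent.Run7.h874.FK

open Topology Filter Set Pool.Agent.Run7.h573.FK

universe u

variable {W : Type u} [LinearOrder W] [OrderTop W] [TopologicalSpace W]

theorem compact_le [OrderTopology W] [CompactSpace W] {s : W} (hs : s < ⊤) :
    IsCompact {x : XX W | x.1.2 ≤ s} := by
  have h1 : Continuous fun q : Ultrafilter ℕ × W =>
      (⟨(q.1, min q.2 s), Or.inl (lt_of_le_of_lt (min_le_right _ _) hs)⟩ : XX W) :=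
    Continuous.subtype_mk (by fun_prop) _
  have h2 : {x : XX W | x.1.2 ≤ s} = range fun q : Ultrafilter ℕ × W =>
      (⟨(q.1, min q.2 s), Or.inl (lt_of_le_of_lt (min_le_right _ _) hs)⟩ : XX W) := by
    ext x
    constructor
    · intro hx
      refine ⟨x.1, Subtype.ext (Prod.ext rfl ?_)⟩
      exact min_eq_left hx
    · rintro ⟨q, rfl⟩
      exact min_le_right _ _
  rw [h2]
  exact isCompact_range h1

theorem t_P2 (W : Type u) [LinearOrder W] [OrderTop W] [TopologicalSpace W] [OrderTopology W]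
    [CompactSpace W] (hG : Good W) : S_P2 W := by
  intro m φ hφ ε hε
  by_contra hcon
  push Not at hcon
  choose U hU1 hU2 using hcon
  -- the next bound
  have hn : ∀ α : {α : W // α < ⊤}, ∃ β : {α : W // α < ⊤}, α.1 ≤ β.1 ∧
      ∀ i, (U α.1 α.2 i).1.2 ≤ β.1 := by
    intro α
    obtain ⟨s, hs, h⟩ := hG.bdd
      (fun j : ℕ => if hj : j < m then (U α.1 α.2 ⟨j, hj⟩).1.2 else α.1) (by
        intro j
        by_cases hj : j < m
        · simp only [hj, dif_pos]
          exact hU1 α.1 α.2 _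
        · simp only [hj, dif_neg, not_false_iff]
          exact α.2)
    refine ⟨⟨s, hs⟩, ?_, fun i => ?_⟩
    · have := h m
      simpa using this
    · have := h i
      simpa [i.2] using this
  choose nxt hn1 hn2 using hn
  obtain ⟨s₀, hs₀⟩ := hG.ne
  let a : ℕ → {α : W // α < ⊤} := fun k => nxt^[k] ⟨s₀, hs₀⟩
  have ha : ∀ k, a (k + 1) = nxt (a k) := fun k => Function.iterate_succ_apply' nxt k _
  have hmono : Monotone fun k => (a k).1 := monotone_nat_of_le_succ fun k => by
    show (a k).1 ≤ (a (k + 1)).1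
    rw [ha]
    exact hn1 _
  obtain ⟨s, hs, hlim, hle⟩ := hG.mono (fun k => (a k).1) hmono fun k => (a k).2
  let u : ℕ → Fin m → XX W := fun k => U (a k).1 (a k).2
  have hu : ∀ k i, (u k i).1.2 ≤ s := by
    intro k i
    refine (hn2 (a k) i).trans ?_
    rw [← ha]
    exact hle (k + 1)
  let L : Set (Fin m → XX W) := univ.pi fun _ => {x : XX W | x.1.2 ≤ s}
  have hL : IsCompact L := isCompact_univ_pi fun _ => compact_le hs
  have huL : ∀ k, u k ∈ L := fun k i _ => hu k i
  let w : ℕ → Fin m → XX W := fun k i => ret (a k).1 (u k i)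
  have hwL : ∀ k, w k ∈ L := fun k i _ => (min_le_left _ _).trans (hu k i)
  obtain ⟨v, hvL, hv⟩ := hL.ultrafilter_le_nhds (Ultrafilter.map u (hyperfilter ℕ))
    (by
      rw [le_principal_iff, Ultrafilter.mem_coe, Ultrafilter.mem_map]
      exact Filter.mem_of_superset Filter.univ_mem fun k _ => huL k)
  have hv' : Tendsto u (hyperfilter ℕ) (𝓝 v) := hv
  have hw' : Tendsto w (hyperfilter ℕ) (𝓝 v) := by
    rw [tendsto_pi_nhds]
    intro i
    have h1 : Tendsto (fun k => u k i) (hyperfilter ℕ) (𝓝 (v i)) := (tendsto_pi_nhds.1 hv') i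
    rw [tendsto_subtype_rng] at h1 ⊢
    have h2 : Tendsto (fun k => ((u k i : XX W) : Ultrafilter ℕ × W).1) (hyperfilter ℕ)
        (𝓝 (v i).1.1) := (continuous_fst.tendsto _).comp h1
    have h3 : Tendsto (fun k => ((u k i : XX W) : Ultrafilter ℕ × W).2) (hyperfilter ℕ)
        (𝓝 (v i).1.2) := (continuous_snd.tendsto _).comp h1
    have h4 : Tendsto (fun k => (a k).1) (hyperfilter ℕ) (𝓝 s) :=
      hlim.mono_left Nat.hyperfilter_le_atTop
    have h5 := h3.min h4
    have h6 : min (v i).1.2 s = (v i).1.2 := min_eq_left (hvL i (mem_univ i))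
    rw [h6] at h5
    exact h2.prodMk_nhds h5
  have e1 : Tendsto (fun k => φ (u k)) (hyperfilter ℕ) (𝓝 (φ v)) :=
    (hφ L hL v hvL).tendsto.comp (tendsto_nhdsWithin_iff.2 ⟨hv', Filter.Eventually.of_forall huL⟩)
  have e2 : Tendsto (fun k => φ (w k)) (hyperfilter ℕ) (𝓝 (φ v)) :=
    (hφ L hL v hvL).tendsto.comp (tendsto_nhdsWithin_iff.2 ⟨hw', Filter.Eventually.of_forall hwL⟩)
  have e3 : Tendsto (fun k => |φ (u k) - φ (w k)|) (hyperfilter ℕ) (𝓝 0) := by
    have := (e1.sub e2).abs
    simpa using this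
  obtain ⟨k, hk⟩ := (e3.eventually (gt_mem_nhds hε)).exists
  exact absurd hk (not_lt.2 (hU2 (a k).1 (a k).2).le)

end Pool.Agent.Run7.h874.FK
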