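import Pool.Agent.Run7.h573.FK.Iface

/-!
# Project FK, piece P3 (Schur property for integers)
-/

set_option autoImplicit false

namespace Pool.Agent.Run7.h874.FK

open Topology Filter Set Pool.Agent.Run7.h573.FK

/-- the sum over a set given by a 0-1 sequence -/
def bs (f : ℕ →₀ ℤ) (b : ℕ → Bool) : ℤ := ∑ n ∈ f.support, bif b n then f n else 0

theorem bs_cont (f : ℕ →₀ ℤ) : Continuous (bs f) := by
  unfold bs
  refine continuous_finsetSum _ fun n _ => ?_
  exact (continuous_of_discreteTopology (f := fun c : Bool => bif c then f n else 0)).comp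
    (continuous_apply n)

theorem bs_diff (f : ℕ →₀ ℤ) (b : ℕ → Bool) (n : ℕ) :
    bs f (Function.update b n true) - bs f (Function.update b n false) = f n := by
  unfold bs
  rw [← Finset.sum_sub_distrib]
  have h : ∀ m ∈ f.support, ((bif Function.update b n true m then f m else 0) -
      (bif Function.update b n false m then f m else 0) : ℤ) = if m = n then f m else 0 := by
    intro m _
    by_cases hm : m = n
    · subst hm; simp
    · simp [hm, Function.update_of_ne hm]
  rw [Finset.sum_congr rfl h, Finset.sum_ite_eq']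
  split_ifs with h1
  · rfl
  · exact (Finsupp.notMem_support_iff.1 h1).symm

open Classical in
theorem t_P3 : S_P3 := by
  intro s hs
  have hcov : ∀ b : ℕ → Bool, ∀ᶠ k in atTop, bs (s k) b = 0 := by
    intro b
    filter_upwards [hs {n | b n = true}] with k hk
    rw [← hk]
    unfold bs Finsupp.sum
    refine Finset.sum_congr rfl fun n _ => ?_
    by_cases h : b n = true
    · simp [h]
    · simp [h]
  have hcl : ∀ N : ℕ, IsClosed {b : ℕ → Bool | ∀ k, N ≤ k → bs (s k) b = 0} := by
    intro N
    have h : {b : ℕ → Bool | ∀ k, N ≤ k → bs (s k) b = 0} =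
        ⋂ k : ℕ, ⋂ _ : N ≤ k, (bs (s k)) ⁻¹' {0} := by
      ext b; simp
    rw [h]
    exact isClosed_iInter fun k => isClosed_iInter fun _ =>
      (isClosed_discrete ({0} : Set ℤ)).preimage (bs_cont (s k))
  have hU : (⋃ N : ℕ, {b : ℕ → Bool | ∀ k, N ≤ k → bs (s k) b = 0}) = univ := by
    refine eq_univ_of_forall fun b => ?_
    obtain ⟨N, hN⟩ := eventually_atTop.1 (hcov b)
    exact mem_iUnion.2 ⟨N, hN⟩
  obtain ⟨N, b₀, hb₀⟩ := nonempty_interior_of_iUnion_of_closed hcl hU
  obtain ⟨I, u, hu, hsub⟩ := isOpen_pi_iff.1 isOpen_interior b₀ hb₀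
  have h1 : ∀ n, n ∉ I → ∀ k, N ≤ k → s k n = 0 := by
    intro n hn k hk
    have h2 : ∀ c : Bool, bs (s k) (Function.update b₀ n c) = 0 := by
      intro c
      have h3 : Function.update b₀ n c ∈ (I : Set ℕ).pi u := by
        intro m hm
        have hmn : m ≠ n := fun h => hn (h ▸ hm)
        rw [Function.update_of_ne hmn]
        exact (hu m hm).2
      exact interior_subset (hsub h3) k hk
    rw [← bs_diff (s k) b₀ n, h2, h2, sub_zero]
  have h2 : ∀ n ∈ I, ∀ᶠ k in atTop, s k n = 0 := by
    intro n _
    filter_upwards [hs {n}] with k hk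
    rw [← hk]
    unfold Finsupp.sum
    simp only [mem_singleton_iff]
    rw [Finset.sum_ite_eq']
    split_ifs with h1
    · rfl
    · exact Finsupp.notMem_support_iff.1 h1
  filter_upwards [(Filter.eventually_all_finset I).2 h2, eventually_ge_atTop N] with k hk hN
  ext n
  by_cases hn : n ∈ I
  · exact hk n hn
  · exact h1 n hn k hN

end Pool.Agent.Run7.h874.FK
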